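import Mathlib
import Pool.Agent.X189.BS.Stm

/-! Part A of MP_4f027a_co: reduced words go up at each step. -/

namespace Pool.Agent.X153.BS

open Equiv Pool.Agent.X189.BS

theorem sg_lt {n : ℕ} (i : Fin n) (x y : Fin (n + 1)) (h : x < y)
    (hne : ¬ (x = i.castSucc ∧ y = i.succ)) : sg i x < sg i y := by
  unfold sg
  rw [Equiv.swap_apply_def, Equiv.swap_apply_def]
  rw [Fin.lt_def] at h
  have e1 : x = i.castSucc ↔ x.val = i.val := by rw [Fin.ext_iff]; simp
  have e2 : x = i.succ ↔ x.val = i.val + 1 := by rw [Fin.ext_iff]; simp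
  have e3 : y = i.castSucc ↔ y.val = i.val := by rw [Fin.ext_iff]; simp
  have e4 : y = i.succ ↔ y.val = i.val + 1 := by rw [Fin.ext_iff]; simp
  rw [e1, e4] at hne
  simp only [e1, e2, e3, e4]
  rw [Fin.lt_def]
  split_ifs <;> simp <;> omega

theorem sg_sg {n : ℕ} (i : Fin n) (x : Fin (n + 1)) : sg i (sg i x) = x := by
  unfold sg; simp

/-- the set of inversions -/
def invSet {n : ℕ} (w : Perm (Fin (n + 1))) : Finset (Fin (n + 1) × Fin (n + 1)) :=
  Finset.univ.filter fun p : Fin (n + 1) × Fin (n + 1) => p.1 < p.2 ∧ w p.2 < w p.1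

theorem inv_eq {n : ℕ} (w : Perm (Fin (n + 1))) : inv w = (invSet w).card := rfl

theorem mem_invSet {n : ℕ} (w : Perm (Fin (n + 1))) (p : Fin (n + 1) × Fin (n + 1)) :
    p ∈ invSet w ↔ p.1 < p.2 ∧ w p.2 < w p.1 := by
  unfold invSet
  rw [Finset.mem_filter]
  exact ⟨fun h => h.2, fun h => ⟨Finset.mem_univ _, h⟩⟩

theorem card_erase_le {n : ℕ} (w : Perm (Fin (n + 1))) (i : Fin n) :
    ((invSet (w * sg i)).erase (i.castSucc, i.succ)).card ≤ (invSet w).card := by
  apply Finset.card_le_card_of_injOn (fun p => (sg i p.1, sg i p.2))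
  · intro p hp
    have hp' := Finset.mem_erase.1 (by exact_mod_cast hp : p ∈ (invSet (w * sg i)).erase (i.castSucc, i.succ))
    obtain ⟨h1, h2⟩ := hp'
    rw [mem_invSet, Perm.mul_apply, Perm.mul_apply] at h2
    rw [Finset.mem_coe, mem_invSet]
    refine ⟨sg_lt i _ _ h2.1 ?_, h2.2⟩
    rintro ⟨h3, h4⟩
    exact h1 (Prod.ext h3 h4)
  · intro p _ q _ h
    simp only [Prod.mk.injEq] at h
    exact Prod.ext ((sg i).injective h.1) ((sg i).injective h.2)

theorem inv_mul_le {n : ℕ} (w : Perm (Fin (n + 1))) (i : Fin n) : inv (w * sg i) ≤ inv w + 1 := by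
  have h1 := card_erase_le w i
  have h2 := Finset.pred_card_le_card_erase (s := invSet (w * sg i)) (a := (i.castSucc, i.succ))
  rw [inv_eq, inv_eq]
  omega

theorem inv_mul_le_of_desc {n : ℕ} (w : Perm (Fin (n + 1))) (i : Fin n)
    (h : ¬ w i.castSucc < w i.succ) : inv (w * sg i) ≤ inv w := by
  have h1 := card_erase_le w i
  have h2 : (i.castSucc, i.succ) ∉ invSet (w * sg i) := by
    intro h3
    rw [mem_invSet, Perm.mul_apply, Perm.mul_apply] at h3
    have h4 := h3.2
    unfold sg at h4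
    rw [Equiv.swap_apply_right, Equiv.swap_apply_left] at h4
    exact h h4
  rw [Finset.erase_eq_of_notMem h2] at h1
  exact h1

theorem wprod_cons {n : ℕ} (i : Fin n) (R : List (Fin n)) : wprod (i :: R) = sg i * wprod R := by
  simp [wprod]

theorem inv_mul_wprod_le {n : ℕ} (R : List (Fin n)) : ∀ u : Perm (Fin (n + 1)),
    inv (u * wprod R) ≤ inv u + R.length := by
  induction R with
  | nil => intro u; simp [wprod]
  | cons i R ih =>
    intro u
    rw [wprod_cons, ← mul_assoc]
    have h1 := ih (u * sg i)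
    have h2 := inv_mul_le u i
    simp only [List.length_cons]
    omega

theorem asc_of_eq {n : ℕ} (R : List (Fin n)) : ∀ u : Perm (Fin (n + 1)),
    inv (u * wprod R) = inv u + R.length → Asc u R := by
  induction R with
  | nil => intro u _; simp [Asc]
  | cons i R ih =>
    intro u h
    rw [wprod_cons, ← mul_assoc, List.length_cons] at h
    have h1 := inv_mul_wprod_le R (u * sg i)
    have h2 := inv_mul_le u i
    have h3 : u i.castSucc < u i.succ := by
      by_contra hd
      have := inv_mul_le_of_desc u i hd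
      omega
    refine ⟨h3, ih (u * sg i) ?_⟩
    omega

theorem inv_one {n : ℕ} : inv (1 : Perm (Fin (n + 1))) = 0 := by
  rw [inv_eq, Finset.card_eq_zero]
  unfold invSet
  rw [Finset.filter_eq_empty_iff]
  rintro p _ ⟨h1, h2⟩
  simp only [Perm.one_apply] at h2
  exact absurd (h1.trans h2) (lt_irrefl _)

theorem t_A : S_A := by
  intro n R hR
  apply asc_of_eq
  rw [one_mul, inv_one, hR, zero_add]

end Pool.Agent.X153.BS
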