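import Mathlib
import Pool.Agent.X189.BS.Stm

/-! Part D of MP_4f027a_co: the vector of the wire `a` is determined by the coefficients. -/

namespace Pool.Agent.X153.BS

open Equiv Pool.Agent.X189.BS

variable {n : ℕ}

/-- `u` is above `v` in the state with crossed pairs `P` -/
def Abv (P : List (Fin (n + 1) × Fin (n + 1))) (u v : Fin (n + 1)) : Prop :=
  (u < v ∧ (u, v) ∉ P) ∨ (v < u ∧ (v, u) ∈ P)

def Gac (a c : Fin (n + 1)) (g : Perm (Fin (n + 1))) : Prop := ∀ z, z < a ∨ c < z → g z = z

open Classical in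
noncomputable def iset (a c : Fin (n + 1)) (P : List (Fin (n + 1) × Fin (n + 1)))
    (g : Perm (Fin (n + 1))) : Finset (Fin (n + 1) × Fin (n + 1)) :=
  Finset.univ.filter fun p => a < p.1 ∧ p.1 < p.2 ∧ p.2 ≤ c ∧ Abv P (g p.2) (g p.1)

theorem mem_iset {a c : Fin (n + 1)} {P : List (Fin (n + 1) × Fin (n + 1))}
    {g : Perm (Fin (n + 1))} {p : Fin (n + 1) × Fin (n + 1)} : p ∈ iset a c P g ↔
    a < p.1 ∧ p.1 < p.2 ∧ p.2 ≤ c ∧ Abv P (g p.2) (g p.1) := by
  classical
  unfold iset
  simp only [Finset.mem_filter]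
  exact ⟨fun h => h.2, fun h => ⟨Finset.mem_univ _, h⟩⟩

open Classical in
noncomputable def Gz (a c z : Fin (n + 1)) : Finset (Perm (Fin (n + 1))) :=
  Finset.univ.filter (fun g => Gac a c g ∧ g a = z)

theorem mem_Gz {a c z : Fin (n + 1)} {g : Perm (Fin (n + 1))} :
    g ∈ Gz a c z ↔ Gac a c g ∧ g a = z := by
  classical
  unfold Gz
  simp only [Finset.mem_filter]
  exact ⟨fun h => h.2, fun h => ⟨Finset.mem_univ _, h⟩⟩

noncomputable def Phi (q : ℤ) (a c : Fin (n + 1)) (P : List (Fin (n + 1) × Fin (n + 1)))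
    (f : Perm (Fin (n + 1)) → ℤ) (z : Fin (n + 1)) : ℤ :=
  ∑ g ∈ Gz a c z, q ^ (iset a c P g).card * f g

theorem Gac.maps {a c : Fin (n + 1)} {g : Perm (Fin (n + 1))} (hg : Gac a c g) {s : Fin (n + 1)}
    (h1 : a ≤ s) (h2 : s ≤ c) : a ≤ g s ∧ g s ≤ c := by
  by_contra h
  have h3 : g s < a ∨ c < g s := by
    by_contra h4
    push Not at h4
    exact h h4
  have h5 := g.injective (hg _ h3)
  rw [h5] at h3
  rcases h3 with h3 | h3
  · exact absurd (lt_of_le_of_lt h1 h3) (lt_irrefl _)
  · exact absurd (lt_of_lt_of_le h3 h2) (lt_irrefl _)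

theorem Gac.symm_maps {a c : Fin (n + 1)} {g : Perm (Fin (n + 1))} (hg : Gac a c g)
    {s : Fin (n + 1)} (h1 : a ≤ s) (h2 : s ≤ c) : a ≤ g.symm s ∧ g.symm s ≤ c := by
  have hg' : Gac a c g.symm := by
    intro z hz
    rw [Equiv.symm_apply_eq]
    exact (hg z hz).symm
  exact hg'.maps h1 h2

section step

variable {a c x y : Fin (n + 1)} {P : List (Fin (n + 1) × Fin (n + 1))}

/-- the hypotheses on a crossing -/
structure Adj (a c x y : Fin (n + 1)) (P : List (Fin (n + 1) × Fin (n + 1))) : Prop where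
  hx : a ≤ x
  hxy : x < y
  hy : y ≤ c
  hP : (x, y) ∉ P
  h1 : ∀ z, y < z → z ≤ c → ((y, z) ∈ P ↔ (x, z) ∈ P)
  h2 : ∀ z, a ≤ z → z < x → ((z, x) ∈ P ↔ (z, y) ∈ P)
  h3 : ∀ z, x < z → z < y → ((x, z) ∈ P ↔ (z, y) ∉ P)

theorem abv_left (H : Adj a c x y P) {w : Fin (n + 1)} (h1 : a ≤ w) (h2 : w ≤ c) (hx : w ≠ x)
    (hy : w ≠ y) : Abv P x w ↔ Abv P y w := by
  unfold Abv
  rcases lt_trichotomy w x with h | h | h
  · have h' : w < y := h.trans H.hxy
    have a1 : ¬ x < w := not_lt.2 h.le
    have a2 : ¬ y < w := not_lt.2 h'.le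
    simp only [a1, a2, h, h', false_and, true_and, false_or]
    exact H.h2 w h1 h
  · exact absurd h hx
  · rcases lt_trichotomy w y with h' | h' | h'
    · have a1 : ¬ w < x := not_lt.2 h.le
      have a2 : ¬ y < w := not_lt.2 h'.le
      simp only [a1, a2, h, h', false_and, true_and, false_or, or_false]
      have := H.h3 w h h'
      tauto
    · exact absurd h' hy
    · have a1 : ¬ w < x := not_lt.2 h.le
      have a2 : ¬ w < y := not_lt.2 h'.le
      simp only [a1, a2, h, h', false_and, true_and, or_false]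
      have := H.h1 w h' h2
      tauto

theorem abv_right (H : Adj a c x y P) {w : Fin (n + 1)} (h1 : a ≤ w) (h2 : w ≤ c) (hx : w ≠ x)
    (hy : w ≠ y) : Abv P w x ↔ Abv P w y := by
  unfold Abv
  rcases lt_trichotomy w x with h | h | h
  · have h' : w < y := h.trans H.hxy
    have a1 : ¬ x < w := not_lt.2 h.le
    have a2 : ¬ y < w := not_lt.2 h'.le
    simp only [a1, a2, h, h', false_and, true_and, or_false]
    have := H.h2 w h1 h
    tauto
  · exact absurd h hx
  · rcases lt_trichotomy w y with h' | h' | h'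
    · have a1 : ¬ w < x := not_lt.2 h.le
      have a2 : ¬ y < w := not_lt.2 h'.le
      simp only [a1, a2, h, h', false_and, true_and, false_or, or_false]
      have := H.h3 w h h'
      tauto
    · exact absurd h' hy
    · have a1 : ¬ w < x := not_lt.2 h.le
      have a2 : ¬ w < y := not_lt.2 h'.le
      simp only [a1, a2, h, h', false_and, true_and, false_or]
      have := H.h1 w h' h2
      tauto

theorem abv_xy (H : Adj a c x y P) : Abv P x y := Or.inl ⟨H.hxy, H.hP⟩

theorem not_abv_yx (H : Adj a c x y P) : ¬ Abv P y x := by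
  rintro (⟨h, _⟩ | ⟨_, h⟩)
  · exact absurd (h.trans H.hxy) (lt_irrefl _)
  · exact H.hP h

/-- the relation is unchanged by exchanging `x` and `y` unless both are involved -/
theorem abv_swap_of (H : Adj a c x y P) {u v : Fin (n + 1)} (hu : a ≤ u ∧ u ≤ c)
    (hv : a ≤ v ∧ v ≤ c) (h : ¬ ((u = x ∨ u = y) ∧ (v = x ∨ v = y))) :
    Abv P (swap x y u) (swap x y v) ↔ Abv P u v := by
  rcases eq_or_ne u x with rfl | hux
  · have hvx : v ≠ u := fun h' => h ⟨Or.inl rfl, Or.inl h'⟩
    have hvy : v ≠ y := fun h' => h ⟨Or.inl rfl, Or.inr h'⟩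
    rw [swap_apply_left, swap_apply_of_ne_of_ne hvx hvy]
    exact (abv_left H hv.1 hv.2 hvx hvy).symm
  · rcases eq_or_ne u y with rfl | huy
    · have hvx : v ≠ x := fun h' => h ⟨Or.inr rfl, Or.inl h'⟩
      have hvy : v ≠ u := fun h' => h ⟨Or.inr rfl, Or.inr h'⟩
      rw [swap_apply_right, swap_apply_of_ne_of_ne hvx hvy]
      exact abv_left H hv.1 hv.2 hvx hvy
    · rw [swap_apply_of_ne_of_ne hux huy]
      rcases eq_or_ne v x with rfl | hvx
      · rw [swap_apply_left]
        exact (abv_right H hu.1 hu.2 hux huy).symm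
      · rcases eq_or_ne v y with rfl | hvy
        · rw [swap_apply_right]
          exact abv_right H hu.1 hu.2 hux huy
        · rw [swap_apply_of_ne_of_ne hvx hvy]

/-- the relation after the crossing -/
theorem abv_append (H : Adj a c x y P) {u v : Fin (n + 1)} (hu : a ≤ u ∧ u ≤ c)
    (hv : a ≤ v ∧ v ≤ c) (huv : u ≠ v) :
    Abv (P ++ [(x, y)]) u v ↔ Abv P (swap x y u) (swap x y v) := by
  by_cases h : (u = x ∨ u = y) ∧ (v = x ∨ v = y)
  · obtain ⟨h1, h2⟩ := h
    rcases h1 with rfl | rfl
    · rcases h2 with rfl | rfl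
      · exact absurd rfl huv
      · rw [swap_apply_left, swap_apply_right]
        have a1 : ¬ Abv P v u := not_abv_yx H
        have a2 : ¬ Abv (P ++ [(u, v)]) u v := by
          rintro (⟨_, h⟩ | ⟨h, _⟩)
          · exact h (by simp)
          · exact absurd (h.trans H.hxy) (lt_irrefl _)
        exact iff_of_false a2 a1
    · rcases h2 with rfl | rfl
      · rw [swap_apply_left, swap_apply_right]
        have a1 : Abv P v u := abv_xy H
        have a2 : Abv (P ++ [(v, u)]) u v := Or.inr ⟨H.hxy, by simp⟩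
        exact iff_of_true a2 a1
      · exact absurd rfl huv
  · rw [abv_swap_of H hu hv h]
    have e1 : (u, v) ∈ P ++ [(x, y)] ↔ (u, v) ∈ P := by
      rw [List.mem_append, List.mem_singleton]
      constructor
      · rintro (h' | h')
        · exact h'
        · rw [Prod.mk.injEq] at h'
          exact absurd ⟨Or.inl h'.1, Or.inr h'.2⟩ h
      · exact Or.inl
    have e2 : (v, u) ∈ P ++ [(x, y)] ↔ (v, u) ∈ P := by
      rw [List.mem_append, List.mem_singleton]
      constructor
      · rintro (h' | h')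
        · exact h'
        · rw [Prod.mk.injEq] at h'
          exact absurd ⟨Or.inr h'.2, Or.inl h'.1⟩ h
      · exact Or.inl
    unfold Abv
    rw [e1, e2]

theorem iset_append (H : Adj a c x y P) {g : Perm (Fin (n + 1))} (hg : Gac a c g) :
    iset a c (P ++ [(x, y)]) g = iset a c P (swap x y * g) := by
  ext p
  rw [mem_iset, mem_iset, Perm.mul_apply, Perm.mul_apply]
  constructor
  · rintro ⟨h1, h2, h3, h4⟩
    refine ⟨h1, h2, h3, ?_⟩
    exact (abv_append H (hg.maps (h1.le.trans h2.le) h3) (hg.maps h1.le (h2.le.trans h3))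
      (fun h => absurd (g.injective h) h2.ne')).1 h4
  · rintro ⟨h1, h2, h3, h4⟩
    refine ⟨h1, h2, h3, ?_⟩
    exact (abv_append H (hg.maps (h1.le.trans h2.le) h3) (hg.maps h1.le (h2.le.trans h3))
      (fun h => absurd (g.injective h) h2.ne')).2 h4

theorem iset_swap_a (H : Adj a c x y P) {g : Perm (Fin (n + 1))} (hg : Gac a c g)
    (ha : g a = x ∨ g a = y) : iset a c P (swap x y * g) = iset a c P g := by
  ext p
  rw [mem_iset, mem_iset, Perm.mul_apply, Perm.mul_apply]
  have key : a < p.1 → p.1 < p.2 → p.2 ≤ c →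
      (Abv P (swap x y (g p.2)) (swap x y (g p.1)) ↔ Abv P (g p.2) (g p.1)) := by
    intro h1 h2 h3
    apply abv_swap_of H (hg.maps (h1.le.trans h2.le) h3) (hg.maps h1.le (h2.le.trans h3))
    rintro ⟨h4, h5⟩
    have n1 : g p.1 ≠ g a := fun h => absurd (g.injective h) h1.ne'
    have n2 : g p.2 ≠ g a := fun h => absurd (g.injective h) (h1.trans h2).ne'
    have n3 : g p.2 ≠ g p.1 := fun h => absurd (g.injective h) h2.ne'
    rcases ha with ha | ha <;> rw [ha] at n1 n2 <;> rcases h4 with h4 | h4 <;>
      rcases h5 with h5 | h5 <;> first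
        | exact n1 h5
        | exact n2 h4
        | exact n3 (h4.trans h5.symm)
  constructor
  · rintro ⟨h1, h2, h3, h4⟩
    exact ⟨h1, h2, h3, (key h1 h2 h3).1 h4⟩
  · rintro ⟨h1, h2, h3, h4⟩
    exact ⟨h1, h2, h3, (key h1 h2 h3).2 h4⟩

theorem iset_swap_na (H : Adj a c x y P) {g : Perm (Fin (n + 1))} (hg : Gac a c g)
    (hax : g a ≠ x) (_hay : g a ≠ y) (hlt : g.symm x < g.symm y) :
    (iset a c P (swap x y * g)).card = (iset a c P g).card + 1 := by
  classical
  have hs := hg.symm_maps H.hx (H.hxy.le.trans H.hy)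
  have ht := hg.symm_maps (H.hx.trans H.hxy.le) H.hy
  have hsa : a < g.symm x := by
    refine lt_of_le_of_ne hs.1 ?_
    intro h
    apply hax
    rw [h]; simp
  have hnot : (g.symm x, g.symm y) ∉ iset a c P g := by
    rw [mem_iset]
    rintro ⟨_, _, _, h⟩
    simp only [apply_symm_apply] at h
    exact not_abv_yx H h
  have heq : iset a c P (swap x y * g) = insert (g.symm x, g.symm y) (iset a c P g) := by
    ext p
    rw [Finset.mem_insert, mem_iset, mem_iset, Perm.mul_apply, Perm.mul_apply]
    constructor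
    · rintro ⟨h1, h2, h3, h4⟩
      by_cases hb : (g p.2 = x ∨ g p.2 = y) ∧ (g p.1 = x ∨ g p.1 = y)
      · left
        have n3 : g p.2 ≠ g p.1 := fun h => absurd (g.injective h) h2.ne'
        obtain ⟨hb1, hb2⟩ := hb
        rcases hb1 with hb1 | hb1 <;> rcases hb2 with hb2 | hb2
        · exact absurd (hb1.trans hb2.symm) n3
        · have e1 : g.symm x = p.2 := by rw [← hb1]; simp
          have e2 : g.symm y = p.1 := by rw [← hb2]; simp
          rw [e1, e2] at hlt
          exact absurd (hlt.trans h2) (lt_irrefl _)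
        · have e1 : g.symm y = p.2 := by rw [← hb1]; simp
          have e2 : g.symm x = p.1 := by rw [← hb2]; simp
          rw [e1, e2]
        · exact absurd (hb1.trans hb2.symm) n3
      · right
        exact ⟨h1, h2, h3, (abv_swap_of H (hg.maps (h1.le.trans h2.le) h3)
          (hg.maps h1.le (h2.le.trans h3)) hb).1 h4⟩
    · rintro (rfl | ⟨h1, h2, h3, h4⟩)
      · refine ⟨hsa, hlt, ht.2, ?_⟩
        simp only [apply_symm_apply, swap_apply_left, swap_apply_right]
        exact abv_xy H
      · refine ⟨h1, h2, h3, ?_⟩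
        by_cases hb : (g p.2 = x ∨ g p.2 = y) ∧ (g p.1 = x ∨ g p.1 = y)
        · have n3 : g p.2 ≠ g p.1 := fun h => absurd (g.injective h) h2.ne'
          obtain ⟨hb1, hb2⟩ := hb
          rcases hb1 with hb1 | hb1 <;> rcases hb2 with hb2 | hb2
          · exact absurd (hb1.trans hb2.symm) n3
          · have e1 : g.symm x = p.2 := by rw [← hb1]; simp
            have e2 : g.symm y = p.1 := by rw [← hb2]; simp
            rw [e1, e2] at hlt
            exact absurd (hlt.trans h2) (lt_irrefl _)
          · rw [hb1, hb2] at h4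
            exact absurd h4 (not_abv_yx H)
          · exact absurd (hb1.trans hb2.symm) n3
        · exact (abv_swap_of H (hg.maps (h1.le.trans h2.le) h3)
            (hg.maps h1.le (h2.le.trans h3)) hb).2 h4
  rw [heq, Finset.card_insert_of_notMem hnot]

theorem swap_mul_swap (g : Perm (Fin (n + 1))) : swap x y * (swap x y * g) = g := by
  rw [← mul_assoc, swap_mul_self, one_mul]

theorem Gac.swap (H : Adj a c x y P) {g : Perm (Fin (n + 1))} (hg : Gac a c g) :
    Gac a c (Equiv.swap x y * g) := by
  intro z hz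
  rw [Perm.mul_apply, hg z hz, swap_apply_of_ne_of_ne]
  · rintro rfl
    rcases hz with h | h
    · exact absurd (lt_of_lt_of_le h H.hx) (lt_irrefl _)
    · exact absurd (lt_of_lt_of_le (h.trans H.hxy) H.hy) (lt_irrefl _)
  · rintro rfl
    rcases hz with h | h
    · exact absurd (lt_of_lt_of_le (H.hxy.trans h) H.hx) (lt_irrefl _)
    · exact absurd (lt_of_lt_of_le h H.hy) (lt_irrefl _)

theorem sum_swap (H : Adj a c x y P) (z : Fin (n + 1)) (F : Perm (Fin (n + 1)) → ℤ) :
    ∑ g ∈ Gz a c z, F (Equiv.swap x y * g) = ∑ g ∈ Gz a c (Equiv.swap x y z), F g := by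
  refine Finset.sum_bij' (fun g _ => Equiv.swap x y * g) (fun g _ => Equiv.swap x y * g)
    ?_ ?_ ?_ ?_ ?_
  · intro g hg
    rw [mem_Gz] at hg ⊢
    exact ⟨hg.1.swap H, by rw [Perm.mul_apply, hg.2]⟩
  · intro g hg
    rw [mem_Gz] at hg ⊢
    refine ⟨hg.1.swap H, by rw [Perm.mul_apply, hg.2]; simp⟩
  · intro g _; exact swap_mul_swap g
  · intro g _; exact swap_mul_swap g
  · intro g _; rfl

theorem Phi_step (q : ℤ) (H : Adj a c x y P) (f : Perm (Fin (n + 1)) → ℤ) (z : Fin (n + 1)) :
    Phi q a c (P ++ [(x, y)]) (cstep q f (x, y)) z = vstep q (Phi q a c P f) (x, y) z := by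
  classical
  have h0 : Phi q a c (P ++ [(x, y)]) (cstep q f (x, y)) z
      = ∑ g ∈ Gz a c z, q ^ (iset a c P (swap x y * g)).card * cstep q f (x, y) g := by
    unfold Phi
    apply Finset.sum_congr rfl
    intro g hg
    rw [iset_append H (mem_Gz.1 hg).1]
  rw [h0]
  unfold vstep
  split_ifs with hz
  · simp only at hz ⊢
    -- `z` is `x` or `y`
    rcases hz with rfl | rfl
    · have h1 : ∀ g ∈ Gz a c z, q ^ (iset a c P (swap z y * g)).card * cstep q f (z, y) g
          = q ^ (iset a c P g).card * f g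
            + q * (q ^ (iset a c P (swap z y * g)).card * f (swap z y * g)) := by
        intro g hg
        rw [mem_Gz] at hg
        have e : iset a c P (swap z y * g) = iset a c P g := iset_swap_a H hg.1 (Or.inl hg.2)
        have hsx : g.symm z = a := by rw [symm_apply_eq]; exact hg.2.symm
        have hsy := (hg.1.symm_maps (H.hx.trans H.hxy.le) H.hy).1
        unfold cstep
        simp only
        rw [if_neg (by rw [hsx]; exact not_lt.2 hsy), e]
        ring
      rw [Finset.sum_congr rfl h1, Finset.sum_add_distrib, ← Finset.mul_sum,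
        sum_swap H z (fun g => q ^ (iset a c P g).card * f g), swap_apply_left]
      rfl
    · have h1 : ∀ g ∈ Gz a c z, q ^ (iset a c P (swap x z * g)).card * cstep q f (x, z) g
          = q ^ (iset a c P (swap x z * g)).card * f (swap x z * g)
            + q * (q ^ (iset a c P g).card * f g) := by
        intro g hg
        rw [mem_Gz] at hg
        have e : iset a c P (swap x z * g) = iset a c P g := iset_swap_a H hg.1 (Or.inr hg.2)
        have hsy : g.symm z = a := by rw [symm_apply_eq]; exact hg.2.symm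
        have hsx := (hg.1.symm_maps H.hx (H.hxy.le.trans H.hy)).1
        have hne : a ≠ g.symm x := by
          intro h
          have : g a = x := by rw [h]; simp
          rw [hg.2] at this
          exact absurd this H.hxy.ne'
        unfold cstep
        simp only
        rw [if_pos (by rw [hsy]; exact lt_of_le_of_ne hsx hne), e]
        ring
      rw [Finset.sum_congr rfl h1, Finset.sum_add_distrib, ← Finset.mul_sum,
        sum_swap H z (fun g => q ^ (iset a c P g).card * f g), swap_apply_right]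
      rfl
  · simp only at hz ⊢
    push Not at hz
    -- split by the order of the two particles
    have hsplit : ∀ F : Perm (Fin (n + 1)) → ℤ, ∑ g ∈ Gz a c z, F g
        = ∑ g ∈ (Gz a c z).filter (fun g => g.symm x < g.symm y),
            (F g + F (swap x y * g)) := by
      intro F
      rw [Finset.sum_add_distrib, ← Finset.sum_filter_add_sum_filter_not (Gz a c z)
        (fun g => g.symm x < g.symm y)]
      congr 1
      refine Finset.sum_bij' (fun g _ => Equiv.swap x y * g) (fun g _ => Equiv.swap x y * g)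
        ?_ ?_ ?_ ?_ ?_
      · intro g hg
        rw [Finset.mem_filter, mem_Gz] at hg ⊢
        refine ⟨⟨hg.1.1.swap H, ?_⟩, ?_⟩
        · rw [Perm.mul_apply, hg.1.2, swap_apply_of_ne_of_ne hz.1 hz.2]
        · have e1 : (Equiv.swap x y * g).symm x = g.symm y := by
            rw [symm_apply_eq]; simp
          have e2 : (Equiv.swap x y * g).symm y = g.symm x := by
            rw [symm_apply_eq]; simp
          rw [e1, e2]
          refine lt_of_le_of_ne (not_lt.1 hg.2) ?_
          intro h
          exact absurd (g.symm.injective h) H.hxy.ne'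
      · intro g hg
        rw [Finset.mem_filter, mem_Gz] at hg ⊢
        refine ⟨⟨hg.1.1.swap H, ?_⟩, ?_⟩
        · rw [Perm.mul_apply, hg.1.2, swap_apply_of_ne_of_ne hz.1 hz.2]
        · have e1 : (Equiv.swap x y * g).symm x = g.symm y := by
            rw [symm_apply_eq]; simp
          have e2 : (Equiv.swap x y * g).symm y = g.symm x := by
            rw [symm_apply_eq]; simp
          rw [e1, e2]
          exact not_lt.2 hg.2.le
      · intro g _; exact swap_mul_swap g
      · intro g _; exact swap_mul_swap g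
      · intro g _
        rw [swap_mul_swap]
    rw [hsplit]
    have hR : (1 + q) * Phi q a c P f z
        = ∑ g ∈ (Gz a c z).filter (fun g => g.symm x < g.symm y),
            (1 + q) * (q ^ (iset a c P g).card * f g
              + q ^ (iset a c P (swap x y * g)).card * f (swap x y * g)) := by
      unfold Phi
      rw [hsplit, Finset.mul_sum]
    rw [hR]
    apply Finset.sum_congr rfl
    intro g hg
    rw [Finset.mem_filter, mem_Gz] at hg
    have hc := iset_swap_na H hg.1.1 (by rw [hg.1.2]; exact hz.1) (by rw [hg.1.2]; exact hz.2) hg.2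
    have e1 : (Equiv.swap x y * g).symm x = g.symm y := by
      rw [symm_apply_eq]; simp
    have e2 : (Equiv.swap x y * g).symm y = g.symm x := by
      rw [symm_apply_eq]; simp
    have c1 : cstep q f (x, y) g = q * f (swap x y * g) + f g := by
      unfold cstep
      simp only
      rw [if_neg (not_lt.2 hg.2.le)]
    have c2 : cstep q f (x, y) (swap x y * g) = f g + q * f (swap x y * g) := by
      unfold cstep
      simp only
      rw [e1, e2, if_pos hg.2, swap_mul_swap]
    rw [c1, c2, swap_mul_swap, hc, pow_succ]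
    ring

end step

theorem Phi_nil (q : ℤ) (a c z : Fin (n + 1)) :
    Phi q a c [] (fun g => if g = 1 then 1 else 0) z = Pi.single (M := fun _ => ℤ) a 1 z := by
  classical
  have h1 : iset a c [] (1 : Perm (Fin (n + 1))) = ∅ := by
    rw [Finset.eq_empty_iff_forall_notMem]
    intro p hp
    rw [mem_iset] at hp
    obtain ⟨_, h2, _, h4⟩ := hp
    simp only [Perm.one_apply] at h4
    rcases h4 with ⟨h, _⟩ | ⟨_, h⟩
    · exact absurd (h.trans h2) (lt_irrefl _)
    · simp at h
  unfold Phi
  by_cases haz : z = a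
  · subst haz
    rw [Finset.sum_eq_single_of_mem (1 : Perm (Fin (n + 1)))]
    · rw [h1]; simp
    · rw [mem_Gz]
      exact ⟨fun _ _ => rfl, rfl⟩
    · intro g _ hg
      show _ * (if g = 1 then (1 : ℤ) else 0) = 0
      rw [if_neg hg, mul_zero]
  · rw [Pi.single_eq_of_ne haz]
    apply Finset.sum_eq_zero
    intro g hg
    rw [mem_Gz] at hg
    show _ * (if g = 1 then (1 : ℤ) else 0) = 0
    rw [if_neg, mul_zero]
    rintro rfl
    exact haz hg.2.symm

theorem fold_eq (q : ℤ) (a c : Fin (n + 1)) (L : List (Fin (n + 1) × Fin (n + 1)))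
    (hL : Val a c L) (P : List (Fin (n + 1) × Fin (n + 1))) : ∀ S, L = P ++ S →
    P.foldl (vstep q) (Pi.single a 1) = Phi q a c P (C q P) := by
  induction P using List.reverseRecOn with
  | nil =>
    intro S _
    funext z
    exact (Phi_nil q a c z).symm
  | append_singleton P e ih =>
    intro S hS
    have hS' : L = P ++ e :: S := by rw [hS]; simp
    have h1 := ih (e :: S) hS'
    obtain ⟨x, y⟩ := e
    obtain ⟨v1, v2, v3, v4, v5, v6, v7⟩ := hL P (x, y) S hS'
    have H : Adj a c x y P := ⟨v1, v2, v3, v4, v5, v6, v7⟩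
    funext z
    rw [List.foldl_append, h1]
    have h2 : C q (P ++ [(x, y)]) = cstep q (C q P) (x, y) := by
      unfold C
      rw [List.foldl_append]
      rfl
    rw [h2, Phi_step q H]
    rfl

theorem t_D : S_D := by
  intro n q a c L L' hL hL' hmem hC z
  rw [fold_eq q a c L hL L [] (by simp), fold_eq q a c L' hL' L' [] (by simp)]
  unfold Phi
  apply Finset.sum_congr rfl
  intro g hg
  rw [mem_Gz] at hg
  rw [hC g hg.1]
  have : iset a c L g = iset a c L' g := by
    ext p
    rw [mem_iset, mem_iset]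
    unfold Abv
    rw [hmem, hmem]
  rw [this]

end Pool.Agent.X153.BS
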